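import Pool.Agent.DFM.Stmts

/-!
# Squad DFM, row BOT: a least element
-/

set_option autoImplicit false

namespace Pool.Agent.DFM.H36

open Pool.Agent.DFM

theorem bot (htf : HtfStmt) : BotStmt := by
  intro P _ hP hb
  obtain ⟨b, hb⟩ := hb
  obtain ⟨h, h1, h2⟩ := htf P hP
  refine ⟨fun x => (h b x : ℤ), fun x y hxy => ?_⟩
  have h3 := h1 x y hxy
  have h4 := h2 b x y (hb x) hxy.le
  have h5 : h b x < h b y := by omega
  exact Int.ofNat_lt.mpr h5

end Pool.Agent.DFM.H36
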